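import Mathlib
import Pool.Graph.R_seed8.W719.AEC.Defs
import Pool.Graph.R_seed8.W719.AEC.NoExp
import Pool.Graph.R_seed8.Y397.PG.Defs
import Pool.Graph.R_seed8.Y397.PG.Theta
import Pool.Graph.R_seed8.Results.MP_fcdc94_gt.PackingCriterionSUN
import Pool.Agent.Helper83.AllG.Defs
import Pool.Agent.Helper83.AllG.PDefs
import Pool.Agent.Helper83.AllG.Zsum

/-!
# The asymptotic expansion of Q1 fails for every simply connected compact simple Lie group
-/

set_option autoImplicit false

open W719AEC Pool.Agent.Y397 Pool.Agent.Helper83.AllG Filter Topology Finset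
open scoped RealInnerProductSpace

namespace Pool.Agent.Results.MP_fcdc94_gt.AllSimpleGroups

/-- The sequence Z (a function of r = k + h^∨) has the asymptotic expansion of Q1 with the phases
c 0, ..., c m: there are rational d_j, rational I_j, positive v_j and complex a_{j,e} (e ≥ 1) such that for
every E there are C_E and r_E such that for all r ≥ r_E the distance of Z r to the sum over j of
v_j * exp (2 π i (r c_j + I_j / 8)) * r ^ d_j * (1 + ∑_{e=1}^E a_{j,e} r ^ (-e))
is at most C_E * r ^ (max_j d_j - E - 1).  (In Q1 the estimate is asked for all r ≥ 2; so `¬ HasExpansion` is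
at least as strong as the failure of Q1's expansion.) -/
def HasExpansion (Z : ℕ → ℂ) (m : ℕ) (c : Fin (m + 1) → ℝ) : Prop :=
  ∃ (d I : Fin (m + 1) → ℚ) (v : Fin (m + 1) → ℝ) (a : Fin (m + 1) → ℕ → ℂ), (∀ j, 0 < v j) ∧
    ∀ E : ℕ, ∃ (C : ℝ) (r₀ : ℕ), ∀ r : ℕ, r₀ ≤ r →
      ‖Z r - ∑ j, (v j : ℂ) * Complex.exp (2 * Real.pi * Complex.I * (r * (c j : ℂ) + (I j : ℂ) / 8)) *
          (((r : ℝ) ^ (d j : ℝ) : ℝ) : ℂ) * (1 + ∑ e ∈ Finset.Icc 1 E, a j e * ((r : ℂ) ^ e)⁻¹)‖ ≤
        C * (r : ℝ) ^ (((Finset.univ.sup' Finset.univ_nonempty d : ℚ) : ℝ) - E - 1)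

/-- The invariants of the graph manifold of Γ for the group G of the root system Φ, as a function of
r = k + h^∨, satisfy c r^E log r ≤ |Z| ≤ C r^E (1 + log r)^B for all large r, with c > 0, and have no
expansion as in Q1, for any finite list of phases, even after a multiplication with phases ω r of absolute
value 1 (for example a change of the 2-framing). They have no expansion in powers of r^(1/2) with real
leading exponents either. -/
def NoExpansion {V : Type*} [NormedAddCommGroup V] [InnerProductSpace ℝ V] [FiniteDimensional ℝ V]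
    (Φ : Finset V) (v : V) {n m : ℕ} (Γ : PlumbingGraph n m) (E : ℝ) : Prop :=
  (∃ (c C : ℝ) (B : ℕ), 0 < c ∧ ∀ᶠ r : ℕ in atTop,
    c * ((r : ℝ) ^ E * Real.log r) ≤ ‖ZG Φ v Γ r‖ ∧ ‖ZG Φ v Γ r‖ ≤ C * ((r : ℝ) ^ E * (1 + Real.log r) ^ B)) ∧
  ∀ ω : ℕ → ℂ, (∀ r, ‖ω r‖ = 1) →
    (∀ (l : ℕ) (c : Fin (l + 1) → ℝ), ¬ HasExpansion (fun r => ω r * ZG Φ v Γ r) l c) ∧
    ∀ h : ℕ, ¬ H524R3.HasExpansion h (fun k => ω (k + h) * ZG Φ v Γ (k + h))

lemma noExp_of_bounds {V : Type*} [NormedAddCommGroup V] [InnerProductSpace ℝ V] [FiniteDimensional ℝ V]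
    {Φ : Finset V} {v : V} {n m : ℕ} {Γ : PlumbingGraph n m} {E : ℝ}
    (hb : ∃ (c C : ℝ) (B : ℕ), 0 < c ∧ ∀ᶠ r : ℕ in atTop,
      c * ((r : ℝ) ^ E * Real.log r) ≤ ‖ZG Φ v Γ r‖ ∧
        ‖ZG Φ v Γ r‖ ≤ C * ((r : ℝ) ^ E * (1 + Real.log r) ^ B)) : NoExpansion Φ v Γ E := by
  refine ⟨hb, fun ω hω => ?_⟩
  obtain ⟨c, C, B, hc, hb⟩ := hb
  have key : ∀ h : ℕ, ¬ H524R3.HasExpansion h (fun k => ω (k + h) * ZG Φ v Γ (k + h)) := by
    intro h
    refine not_hasExpansion h E (fun r => ω r * ZG Φ v Γ r) C B ?_ ?_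
    · filter_upwards [hb] with r hr
      rw [norm_mul, hω, one_mul]
      exact hr.2
    · have h3 : Tendsto (fun r : ℕ => c * Real.log r) atTop atTop :=
        (Real.tendsto_log_atTop.comp tendsto_natCast_atTop_atTop).const_mul_atTop hc
      refine tendsto_atTop_mono' _ ?_ h3
      filter_upwards [hb, eventually_ge_atTop 1] with r hr hr1
      have hr' : (0 : ℝ) < r := by exact_mod_cast hr1
      rw [norm_mul, hω, one_mul, le_div_iff₀ (Real.rpow_pos_of_pos hr' E)]
      linarith [hr.1]
  refine ⟨fun l c hexp => ?_, key⟩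
  exact key 0 (MP_fcdc94_gt.PackingCriterionSUN.to_half (N := 0) hexp)

/-- **The asymptotic expansion of Q1 fails for every simply connected compact simple Lie group G.**
Let Φ be the root system of G (long roots of square length 2) and v a regular vector (it fixes the positive
roots, on which the invariants do not depend), rank G = dim V, dim G = |Φ| + rank G, and
h = |Φ| / rank G the Coxeter number.
(1) Let Γ be a plumbing graph (any number of vertices and edges, loops and multiple edges allowed, pieces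
of any genus) with Euler numbers 0, whose edges come in pairs of opposite sign with the same ends. If the
linear programme `IsOptimal h` (fractional packings of the vertices with the weights 1 - h (g_v - 1)) has two
different solutions, then the quantum G invariants of the graph manifold of Γ have no expansion as in Q1,
whatever the phases are; their growth is r^E times a factor between log r and a power of log r, with
E = dim G (P + ∑_v (g_v - 1)) + rank G ∑_v (1 - h (g_v - 1)) α_v, P the number of the positive edges.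
(2) For every k ≥ 1 the graph manifold M_k of the graph with two vertices of genus 1, joined by k positive
and k negative edges, is a counterexample for all G at the same time, with E = k dim G + rank G. -/
theorem result {V : Type*} [NormedAddCommGroup V] [InnerProductSpace ℝ V] [FiniteDimensional ℝ V]
    (Φ : Finset V) (hΦ : IsSimple Φ) (v : V) (hv : ∀ α ∈ Φ, ⟪α, v⟫ ≠ 0) :
    (∀ (n m : ℕ) (Γ : PlumbingGraph n m), (∀ i, Γ.euler i = 0) → PG.Doubled Γ →
      ∀ α α' : Fin n → ℝ, IsOptimal (Φ.card / Module.finrank ℝ V) Γ α →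
        IsOptimal (Φ.card / Module.finrank ℝ V) Γ α' → α ≠ α' →
          NoExpansion Φ v Γ (growth (Φ.card + Module.finrank ℝ V) (Module.finrank ℝ V) Γ
            (weight (Φ.card / Module.finrank ℝ V) Γ α))) ∧
    (∀ k : ℕ, 1 ≤ k →
      NoExpansion Φ v (PG.theta k) ((Φ.card + Module.finrank ℝ V) * k + Module.finrank ℝ V)) := by
  have h1 : ∀ (n m : ℕ) (Γ : PlumbingGraph n m), (∀ i, Γ.euler i = 0) → PG.Doubled Γ →
      ∀ α α' : Fin n → ℝ, IsOptimal (Φ.card / Module.finrank ℝ V) Γ α →
        IsOptimal (Φ.card / Module.finrank ℝ V) Γ α' → α ≠ α' →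
          NoExpansion Φ v Γ (growth (Φ.card + Module.finrank ℝ V) (Module.finrank ℝ V) Γ
            (weight (Φ.card / Module.finrank ℝ V) Γ α)) :=
    fun n m Γ h0 hd α α' hα hα' hne => noExp_of_bounds (ZG_bounds hΦ hv Γ h0 hd α α' hα hα' hne)
  refine ⟨h1, fun k hk => ?_⟩
  have hℓ0 : (0 : ℝ) < Module.finrank ℝ V := by exact_mod_cast rank_pos hΦ
  have hh : (2 : ℝ) ≤ Φ.card / Module.finrank ℝ V := by
    rw [le_div_iff₀ hℓ0]
    have e1 : (Φ.card : ℝ) = 2 * (pos Φ v).card := by exact_mod_cast card_eq_two_pos hΦ hv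
    have e2 : (Module.finrank ℝ V : ℝ) ≤ (pos Φ v).card := by exact_mod_cast rank_le_pos hΦ hv
    linarith
  obtain ⟨α, α', hne, hα, hα', hw⟩ := theta_optimal k hk _ hh
  have h2 := h1 2 (2 * k) (PG.theta k) (fun _ => rfl) (PG.theta_doubled k) α α' hα hα' hne
  have h3 : growth (Φ.card + Module.finrank ℝ V) (Module.finrank ℝ V) (PG.theta k)
      (weight (Φ.card / Module.finrank ℝ V) (PG.theta k) α) =
      (Φ.card + Module.finrank ℝ V) * k + Module.finrank ℝ V := by
    unfold growth
    rw [hw, PG.theta_card]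
    have : ∑ i : Fin 2, (((PG.theta k).genus i : ℝ) - 1) = 0 := by
      refine Finset.sum_eq_zero fun i _ => ?_
      simp [PG.theta]
    rw [this]
    ring
  rwa [h3] at h2

end Pool.Agent.Results.MP_fcdc94_gt.AllSimpleGroups
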